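import Pool.Agent.MP_0f075e_lc.Defs

/-! Buchi automata with at most one non-accepting state and the size `sOne n`. -/

namespace Pool.Agent.MP_0f075e_lc

/-- At most one state is not accepting. -/
def NBA.OneRej {A Q : Type} (B : NBA A Q) : Prop :=
  ∀ p q, p ∉ B.acc → q ∉ B.acc → p = q

/-- `sOne n`: the least `m` such that every Buchi automaton with `n` states of which at most one
is not accepting, over any finite alphabet, has an equivalent state-based deterministic Rabin
automaton with at most `m` states. -/
noncomputable def sOne (n : ℕ) : ℕ :=
  sInf {m | ∀ (A : Type) [Finite A] (B : NBA A (Fin n)), B.OneRej →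
    ∃ k ≤ m, ∃ D : SDRA A (Fin k), ∀ w, D.Accepts w ↔ B.Accepts w}

end Pool.Agent.MP_0f075e_lc
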