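import Mathlib.Logic.Relation
import Pool.Agent.MP_0f075e_lc.Defs

/-! Weak Buchi automata and the size `sWeak n`. -/

namespace Pool.Agent.MP_0f075e_lc

/-- `q` is reachable from `p` along zero or more transitions. -/
def NBA.Reach {A Q : Type} (B : NBA A Q) : Q → Q → Prop :=
  Relation.ReflTransGen fun p q => ∃ a, B.tr p a q

/-- A weak Buchi automaton: two mutually reachable states are both accepting or both not. -/
def NBA.Weak {A Q : Type} (B : NBA A Q) : Prop :=
  ∀ p q, B.Reach p q → B.Reach q p → (p ∈ B.acc ↔ q ∈ B.acc)

/-- `sWeak n`: the least `m` such that every weak Buchi automaton with `n` states, over any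
finite alphabet, has an equivalent state-based deterministic Rabin automaton with at most `m`
states. -/
noncomputable def sWeak (n : ℕ) : ℕ :=
  sInf {m | ∀ (A : Type) [Finite A] (B : NBA A (Fin n)), B.Weak →
    ∃ k ≤ m, ∃ D : SDRA A (Fin k), ∀ w, D.Accepts w ↔ B.Accepts w}

end Pool.Agent.MP_0f075e_lc
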