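import Mathlib.Data.Set.Card
import Pool.Agent.MP_0f075e_lc.H37.Num

/-! Lower bounds: bottom components and the token map. -/

namespace Pool.Agent.MP_0f075e_lc.W55

open Pool.Agent.MP_0f075e_lc

lemma bottom {X : Type} [Finite X] (R : X → X → Prop) (tr : ∀ a b c, R a b → R b c → R a c)
    (x : X) (ser : ∀ y, R x y → ∃ z, R y z) (hx : ∃ y, R x y) :
    ∃ y, R x y ∧ R y y ∧ ∀ z, R y z → R z y := by
  obtain ⟨y, hy, hmin⟩ := Set.exists_min_image {y | R x y} (fun y => {t | R y t}.ncard)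
    (Set.toFinite _) hx
  have key : ∀ z, R y z → ∀ t, R y t → R z t := by
    intro z hz
    have : {t | R z t} = {t | R y t} :=
      Set.eq_of_subset_of_ncard_le (fun t ht => tr _ _ _ hz ht) (hmin z (tr _ _ _ hy hz))
        (Set.toFinite _)
    intro t ht
    have h2 : t ∈ {t | R z t} := by rw [this]; exact ht
    exact h2
  obtain ⟨y', hy'⟩ := ser y hy
  exact ⟨y', tr _ _ _ hy hy', key y' hy' y' hy', fun z hz => key z (tr _ _ _ hy' hz) y' hy'⟩

lemma big_loop {A Q : Type} [Finite Q] (δ : Q → A → Q) (q : Q) (L : List A → Prop)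
    (app : ∀ x y, L x → L y → L (x ++ y)) (lp : ∀ x, L x → dst δ q x = q) (P : Set Q)
    (h0 : ∃ x, L x) (h : ∀ p ∈ P, ∃ x, L x ∧ p ∈ vis δ q x) : ∃ x, L x ∧ P ⊆ vis δ q x := by
  obtain ⟨x0, h0⟩ := h0
  obtain ⟨_, ⟨x, hx, rfl⟩, hmax⟩ := Set.exists_max_image {V | ∃ x, L x ∧ vis δ q x = V}
    Set.ncard (Set.toFinite _) ⟨_, x0, h0, rfl⟩
  refine ⟨x, hx, fun p hp => ?_⟩
  obtain ⟨y, hy, hp⟩ := h p hp
  have e : vis δ q (x ++ y) = vis δ q x ∪ vis δ q y := by rw [vis_app, lp x hx]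
  have : vis δ q x = vis δ q (x ++ y) :=
    Set.eq_of_subset_of_ncard_le (by rw [e]; exact Set.subset_union_left)
      (hmax _ ⟨_, app _ _ hx hy, rfl⟩) (Set.toFinite _)
  rw [this, e]; exact Or.inr hp

lemma mem_vis {A Q : Type} (δ : Q → A → Q) (q : Q) {x : List A} (hx : x ≠ []) : q ∈ vis δ q x := by
  cases x with
  | nil => exact absurd rfl hx
  | cons c x => exact Set.mem_insert _ _

section
variable {A Q : Type}

def dl (D : SDRA A Q) : Option Q → A → Option Q := fun q a => q.bind (fun p => D.tr p a)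

def AccD (D : SDRA A Q) (C : Set (Option Q)) : Prop :=
  none ∉ C ∧ ∃ p ∈ D.pairs, (∃ q ∈ p.2, some q ∈ C) ∧ ∀ q ∈ p.1, some q ∉ C

lemma accD_rabin (D : SDRA A Q) (C : Set (Option Q)) (h : AccD D C) :
    ∃ z ∈ C, ∀ C' ⊆ C, z ∈ C' → AccD D C' := by
  obtain ⟨h1, p, hp, ⟨q, hq, h2⟩, h3⟩ := h
  exact ⟨some q, h2, fun C' hC hz =>
    ⟨fun h => h1 (hC h), p, hp, ⟨q, hq, hz⟩, fun q' hq' h => h3 q' hq' (hC h)⟩⟩

lemma dst_none (D : SDRA A Q) (x : List A) : dst (dl D) none x = none := by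
  induction x with
  | nil => rfl
  | cons c x ih => exact ih

lemma muller' [Finite Q] (D : SDRA A Q) (w : ℕ → A) :
    AccD D (InfS (run (dl D) (some D.start) w)) ↔ D.Accepts w := by
  set r := run (dl D) (some D.start) w with hr
  have fin : ∀ (z : ℕ → Q) (X : Set Q), (∀ i, r i = some (z i)) →
      (∀ q ∈ X, some q ∉ InfS r) → ∃ M, ∀ i, M ≤ i → z i ∉ X := by
    intro z X hz h3
    have : ∀ q, ∃ N, q ∈ X → ∀ i, N ≤ i → z i ≠ q := by
      intro q
      by_cases hq : q ∈ X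
      · have := h3 q hq
        simp only [InfS, Set.mem_ofPred_eq, not_forall, not_exists, not_and] at this
        obtain ⟨N, hN⟩ := this
        exact ⟨N, fun _ i hi h => hN i hi (by rw [hz, h])⟩
      · exact ⟨0, fun h => absurd h hq⟩
    choose f hf using this
    obtain ⟨M, hM⟩ := (Set.finite_range f).bddAbove
    exact ⟨M, fun i hi h => hf _ h i ((hM ⟨_, rfl⟩).trans hi) rfl⟩
  constructor
  · rintro ⟨h1, p, hp, ⟨q, hq, h2⟩, h3⟩
    have hn : ∀ i, ∃ z, r i = some z := by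
      intro i
      rcases h : r i with _ | z
      · exfalso
        apply h1
        intro N
        refine ⟨i + N, by omega, ?_⟩
        induction N with
        | zero => exact h
        | succ N ih =>
          show (r (i + N)).bind _ = none
          rw [ih]; rfl
      · exact ⟨z, rfl⟩
    choose z hz using hn
    refine ⟨z, Option.some.inj (hz 0).symm, fun i => ?_, p, hp, fun N => ?_, fin z _ hz h3⟩
    · have : r (i + 1) = (r i).bind (fun p => D.tr p (w i)) := rfl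
      rw [hz, hz] at this
      exact this.symm
    · obtain ⟨i, hi, h⟩ := h2 N
      rw [hz] at h
      exact ⟨i, hi, by rw [Option.some.inj h]; exact hq⟩
  · rintro ⟨z, h0, h1, p, hp, h2, N, h3⟩
    have hz : ∀ i, r i = some (z i) := by
      intro i
      induction i with
      | zero => rw [h0]; rfl
      | succ i ih =>
        show (r i).bind _ = _
        rw [ih]; exact h1 i
    refine ⟨fun h => ?_, p, hp, ?_, fun q hq h => ?_⟩
    · obtain ⟨i, -, h⟩ := h 0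
      rw [hz] at h; simp at h
    · by_contra hc
      obtain ⟨M, hM⟩ := fin z p.2 hz (fun q hq h => hc ⟨q, hq, h⟩)
      obtain ⟨i, hi, h⟩ := h2 M
      exact hM i hi h
    · obtain ⟨i, hi, h⟩ := h N
      rw [hz] at h
      exact h3 i hi (by rw [Option.some.inj h]; exact hq)

end

section
variable {P : Type}

abbrev Le (P : Type) := Option P → Option P → Prop

/-- The full automaton with one non-accepting state; for `wk` true no edge returns to it. -/
def BB (P : Type) (wk : Prop) : NBA (Le P) (Option P) :=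
  ⟨none, fun a c b => c a b ∧ (wk → b = none → a = none), {x | x ≠ none}⟩

def lt (T : Set P) (E : P → P → Prop) : Le P
  | none, none => True
  | none, some t => t ∈ T
  | some s, some t => E s t
  | some _, none => False

def LT (T : Set P) (c : Le P) : Prop := ∃ E, (∀ s t, E s t → t ∈ T) ∧ c = lt T E

def WT (T : Set P) (x : List (Le P)) : Prop := ∀ c ∈ x, LT T c

def Wk (x : List (Le P)) : Prop := ∀ c ∈ x, ∀ s, ¬ c (some s) none

def ST (T : Set P) : Set (Option P) := {b | ∀ t, b = some t → t ∈ T}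

lemma tr_lt (wk : Prop) (T : Set P) (E : P → P → Prop) (a b : Option P) :
    (BB P wk).tr a (lt T E) b ↔ lt T E a b := by
  refine ⟨fun h => h.1, fun h => ⟨h, fun _ hb => ?_⟩⟩
  subst hb
  cases a with
  | none => rfl
  | some s => exact h.elim

lemma WT.wk {T : Set P} {x : List (Le P)} (h : WT T x) : Wk x := by
  intro c hc s
  obtain ⟨E, -, rfl⟩ := h c hc
  exact id

lemma WT.app {T : Set P} {x y : List (Le P)} (h : WT T x) (h' : WT T y) : WT T (x ++ y) :=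
  fun c hc => (List.mem_append.1 hc).elim (h c) (h' c)

lemma WT.cons {T : Set P} {c : Le P} {y : List (Le P)} (h : LT T c) (h' : WT T y) :
    WT T (c :: y) := by
  intro d hd
  rcases List.mem_cons.1 hd with rfl | hd
  · exact h
  · exact h' d hd

lemma WT.nil {T : Set P} : WT T ([] : List (Le P)) := fun _ h => by simp at h

lemma Wk.cons {c : Le P} {y : List (Le P)} (h : ∀ s, ¬ c (some s) none) (h' : Wk y) :
    Wk (c :: y) := by
  intro d hd
  rcases List.mem_cons.1 hd with rfl | hd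
  · exact h
  · exact h' d hd

lemma pth_some {wk : Prop} {x : List (Le P)} : Wk x → ∀ {a b : Option P}, a ≠ none →
    Pth (BB P wk) a x b → b ≠ none := by
  induction x with
  | nil => rintro _ a b ha rfl; exact ha
  | cons c x ih =>
    rintro h a b ha ⟨d, h1, h2⟩
    refine ih (fun c hc => h c (List.mem_cons_of_mem _ hc)) ?_ h2
    rintro rfl
    cases a with
    | none => exact ha rfl
    | some s => exact h c (List.mem_cons_self ..) s h1.1

lemma pa_some {wk : Prop} {x : List (Le P)} : Wk x → ∀ {a b : Option P},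
    PA (BB P wk) a x b → b ≠ none := by
  induction x with
  | nil => intro _ a b h; exact h.elim
  | cons c x ih =>
    rintro h a b ⟨d, h1, ⟨h2, h3⟩ | h2⟩
    · exact pth_some (wk := wk) h h2 ⟨d, h1, h3⟩
    · exact ih (fun c hc => h c (List.mem_cons_of_mem _ hc)) h2

lemma pa_of_pth {wk : Prop} {x : List (Le P)} (hx : x ≠ []) {s : P} {b : Option P}
    (h : Pth (BB P wk) (some s) x b) : PA (BB P wk) (some s) x b := by
  cases x with
  | nil => exact absurd rfl hx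
  | cons c x =>
    obtain ⟨d, h1, h2⟩ := h
    exact ⟨d, h1, Or.inl ⟨by simp [BB], h2⟩⟩

lemma pth_none {wk : Prop} {T : Set P} {x : List (Le P)} (h : WT T x) :
    Pth (BB P wk) none x none := by
  induction x with
  | nil => rfl
  | cons c x ih =>
    obtain ⟨E, -, rfl⟩ := h c (List.mem_cons_self ..)
    exact ⟨none, (tr_lt ..).2 trivial, ih fun c hc => h c (List.mem_cons_of_mem _ hc)⟩

variable {Q : Type} {wk : Prop} {δ : Q → Le P → Q} {q0 : Q} {Acc : Set Q → Prop}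

def Cl (wk : Prop) (δ : Q → Le P → Q) (q0 : Q) (S : Set (Option P)) (q : Q) : Prop :=
  ∃ u, dst δ q0 u = q ∧ ∀ b, Pth (BB P wk) none u b ↔ b ∈ S

lemma Cl.step {S S' : Set (Option P)} {q : Q} (h : Cl wk δ q0 S q) (c : Le P)
    (hc : ∀ b, (∃ a ∈ S, (BB P wk).tr a c b) ↔ b ∈ S') : Cl wk δ q0 S' (δ q c) := by
  obtain ⟨u, h1, h2⟩ := h
  refine ⟨u ++ [c], by rw [dst_app, h1]; rfl, fun b => ?_⟩
  rw [pth_app, ← hc]
  constructor
  · rintro ⟨a, h3, d, h4, rfl⟩
    exact ⟨a, (h2 a).1 h3, h4⟩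
  · rintro ⟨a, h3, h4⟩
    exact ⟨a, (h2 a).2 h3, b, h4, rfl⟩

lemma Cl.lt {T T' : Set P} {q : Q} (h : Cl wk δ q0 (ST T') q) {c : Le P} (hc : LT T c) :
    Cl wk δ q0 (ST T) (δ q c) := by
  obtain ⟨E, hE, rfl⟩ := hc
  refine h.step _ fun b => ⟨?_, fun hb => ⟨none, fun t ht => by simp at ht, (tr_lt ..).2 ?_⟩⟩
  · rintro ⟨a, -, h2⟩ t rfl
    rw [tr_lt] at h2
    cases a with
    | none => exact h2
    | some s => exact hE s t h2
  · cases b with
    | none => trivial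
    | some t => exact hb t rfl

lemma Cl.wt {T : Set P} {x : List (Le P)} : ∀ {q : Q}, Cl wk δ q0 (ST T) q → WT T x →
    Cl wk δ q0 (ST T) (dst δ q x) := by
  induction x with
  | nil => intro q h _; exact h
  | cons c x ih =>
    intro q h hx
    exact ih (h.lt (hx c (List.mem_cons_self ..))) fun c hc => hx c (List.mem_cons_of_mem _ hc)

lemma acc_of (hA : ∀ w, Acc (InfS (run δ q0 w)) ↔ (BB P wk).Accepts w) {S : Set (Option P)}
    {q : Q} (hq : Cl wk δ q0 S q) {x : List (Le P)} (hx : x ≠ []) (hl : dst δ q x = q)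
    {h : Option P} (hh : h ∈ S) (hp : PA (BB P wk) h x h) : Acc (vis δ q x) := by
  obtain ⟨u, rfl, h2⟩ := hq
  obtain ⟨w, e, h3, -⟩ := lasso_facts δ q0 (BB P wk) u x hx hl
  rw [← e, hA]
  exact h3 ⟨h, (h2 h).2 hh, hp⟩

lemma rej_of (hA : ∀ w, Acc (InfS (run δ q0 w)) ↔ (BB P wk).Accepts w) {S : Set (Option P)}
    {q : Q} (hq : Cl wk δ q0 S q) {x : List (Le P)} (hx : x ≠ []) (hl : dst δ q x = q)
    (hw : Wk x) (hp : ∀ s b, ¬ Pth (BB P wk) (some s) x b) : ¬ Acc (vis δ q x) := by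
  obtain ⟨u, rfl, -⟩ := hq
  obtain ⟨w, e, -, h3⟩ := lasso_facts δ q0 (BB P wk) u x hx hl
  rw [← e, hA]
  intro h
  obtain ⟨c, -, h4, h5⟩ := h3 h
  obtain ⟨k, -, h6⟩ := h5 0
  have h7 := pa_some hw h6
  have h8 := h4 (k + 1)
  rcases h9 : c (k + 1) with _ | s
  · exact h7 h9
  · rw [h9] at h8; exact hp _ _ h8

lemma lt_kill (T : Set P) : LT T (lt T fun _ _ => False) := ⟨_, fun _ _ h => h.elim, rfl⟩

lemma no_pth_kill (T : Set P) (x : List (Le P)) (s : P) (b : Option P) :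
    ¬ Pth (BB P wk) (some s) (lt T (fun _ _ => False) :: x) b := by
  rintro ⟨d, h1, -⟩
  rw [tr_lt] at h1
  cases d <;> exact h1

/-- A set of states of class `T` that is closed and strongly connected under the letters of `T`. -/
structure Bot (wk : Prop) (δ : Q → Le P → Q) (q0 : Q) (T : Set P) (C : Set Q) : Prop where
  ne : C.Nonempty
  cl : ∀ q ∈ C, Cl wk δ q0 (ST T) q
  st : ∀ q ∈ C, ∀ c, LT T c → δ q c ∈ C
  sc : ∀ q ∈ C, ∀ q' ∈ C, ∃ x, x ≠ [] ∧ WT T x ∧ dst δ q x = q'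

lemma Bot.vis {T : Set P} {C : Set Q} (h : Bot wk δ q0 T C) {x : List (Le P)} :
    ∀ q ∈ C, WT T x → vis δ q x ⊆ C ∧ dst δ q x ∈ C := by
  induction x with
  | nil => intro q hq _; exact ⟨Set.empty_subset _, hq⟩
  | cons c x ih =>
    intro q hq hx
    have := ih _ (h.st q hq c (hx c (List.mem_cons_self ..)))
      fun c hc => hx c (List.mem_cons_of_mem _ hc)
    exact ⟨Set.insert_subset hq this.1, this.2⟩

lemma bot_ex [Finite Q] (T : Set P) : ∃ C, Bot wk δ q0 T C := by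
  let R : Q → Q → Prop := fun q q' => ∃ x, x ≠ [] ∧ WT T x ∧ dst δ q x = q'
  have tr : ∀ a b c, R a b → R b c → R a c := by
    rintro a _ _ ⟨x, h1, h2, rfl⟩ ⟨y, -, h4, rfl⟩
    exact ⟨x ++ y, by simp [h1], h2.app h4, dst_app ..⟩
  have one : ∀ a c, LT T c → R a (δ a c) := fun a c hc =>
    ⟨[c], by simp, WT.cons hc WT.nil, rfl⟩
  have h0 : Cl wk δ q0 (ST T) (δ q0 (lt T fun _ _ => False)) := by
    have : Cl wk δ q0 (ST ∅) q0 := ⟨[], rfl, fun b => ⟨fun h t ht => by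
      have h' : none = b := h
      rw [ht] at h'; simp at h', fun hb => by
      cases b with
      | none => rfl
      | some t => exact (hb t rfl).elim⟩⟩
    exact this.lt (lt_kill T)
  obtain ⟨y, h1, h2, h3⟩ := bottom R tr (δ q0 (lt T fun _ _ => False))
    (fun y _ => ⟨_, one y _ (lt_kill T)⟩) ⟨_, one _ _ (lt_kill T)⟩
  refine ⟨{q | R y q}, ⟨y, h2⟩, fun q hq => ?_, fun q hq c hc => tr _ _ _ hq (one q c hc),
    fun q hq q' hq' => tr _ _ _ (h3 q hq) hq'⟩
  obtain ⟨x, -, h5, rfl⟩ := tr _ _ _ h1 hq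
  exact h0.wt h5

/-- The token map is onto the subsets of `T`. -/
theorem core [Finite Q] [Finite P] (hA : ∀ w, Acc (InfS (run δ q0 w)) ↔ (BB P wk).Accepts w)
    (hR : ∀ C, Acc C → ∃ z ∈ C, ∀ C' ⊆ C, z ∈ C' → Acc C') {T : Set P} {C : Set Q}
    (hC : Bot wk δ q0 T C) : ∃ U : Q → Set P, ∀ O ⊆ T, ∃ q ∈ C, U q = O := by
  obtain ⟨qc, hqc⟩ := hC.ne
  rcases T.eq_empty_or_nonempty with rfl | ⟨y0, hy0⟩
  · exact ⟨fun _ => ∅, fun O hO => ⟨qc, hqc, (Set.subset_empty_iff.1 hO).symm⟩⟩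
  let R : Q × P → Q × P → Prop := fun a b => b.2 ∈ T ∧ ∃ x, x ≠ [] ∧ WT T x ∧ dst δ a.1 x = b.1 ∧
    Pth (BB P wk) (some a.2) x (some b.2)
  have tr : ∀ a b c, R a b → R b c → R a c := by
    rintro a b c ⟨-, x, h1, h2, h3, h4⟩ ⟨h5, y, -, h6, h7, h8⟩
    exact ⟨h5, x ++ y, by simp [h1], h2.app h6, by rw [dst_app, h3, h7],
      (pth_app ..).2 ⟨_, h4, h8⟩⟩
  have one : ∀ q y E y', (∀ s t, E s t → t ∈ T) → E y y' → R (q, y) (δ q (lt T E), y') :=
    fun q y E y' hE h => ⟨hE _ _ h, [lt T E], by simp, WT.cons ⟨E, hE, rfl⟩ WT.nil, rfl,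
      some y', (tr_lt ..).2 h, rfl⟩
  have ser : ∀ a : Q × P, ∃ b, R a b := fun a =>
    ⟨_, one a.1 a.2 (fun _ t => t = y0) y0 (fun _ _ h => h ▸ hy0) rfl⟩
  obtain ⟨b, h1, h2, h3⟩ := bottom R tr (qc, y0) (fun y _ => ser y) (ser _)
  let U : Q → Set P := fun q => {y | R b (q, y)}
  let X : Set Q := {q | (U q).Nonempty}
  have hb : b.1 ∈ C := by
    obtain ⟨-, x, -, h5, h6, -⟩ := h1
    rw [← h6]; exact (hC.vis qc hqc h5).2
  have XC : X ⊆ C := by
    rintro q ⟨y, -, x, -, h5, h6, -⟩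
    have h7 : dst δ b.1 x = q := h6
    rw [← h7]; exact (hC.vis _ hb h5).2
  have visX : ∀ (x : List (Le P)) q y y', y ∈ U q → WT T x →
      Pth (BB P wk) (some y) x (some y') → vis δ q x ⊆ X := by
    intro x
    induction x with
    | nil => intro _ _ _ _ _ _; exact Set.empty_subset _
    | cons c x ih =>
      rintro q y y' hy hx ⟨d, h4, h5⟩
      obtain ⟨E, hE, rfl⟩ := hx c (List.mem_cons_self ..)
      rw [tr_lt] at h4
      cases d with
      | none => exact h4.elim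
      | some t =>
        exact Set.insert_subset ⟨y, hy⟩ (ih _ t y' (tr _ _ _ hy (one q y E t hE h4))
          (fun c hc => hx c (List.mem_cons_of_mem _ hc)) h5)
  have aX : Acc X := by
    obtain ⟨x, ⟨g1, g2, g3, g4⟩, g5⟩ := big_loop δ b.1 (fun x => x ≠ [] ∧ WT T x ∧
        dst δ b.1 x = b.1 ∧ Pth (BB P wk) (some b.2) x (some b.2))
      (fun x y hx hy => ⟨by simp [hx.1], hx.2.1.app hy.2.1, by rw [dst_app, hx.2.2.1, hy.2.2.1],
        (pth_app ..).2 ⟨_, hx.2.2.2, hy.2.2.2⟩⟩) (fun x hx => hx.2.2.1) X h2.2 (by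
        rintro p ⟨y, hy⟩
        obtain ⟨-, x', k1, k2, k3, k4⟩ := h3 _ hy
        obtain ⟨-, x, k5, k6, k7, k8⟩ := hy
        have k7' : dst δ b.1 x = p := k7
        have k3' : dst δ p x' = b.1 := k3
        refine ⟨x ++ x', ⟨by simp [k5], k6.app k2, by rw [dst_app, k7', k3'],
          (pth_app ..).2 ⟨_, k8, k4⟩⟩, ?_⟩
        rw [vis_app, k7']
        exact Or.inr (mem_vis δ p k1))
    have e : vis δ b.1 x = X := Set.Subset.antisymm (visX x b.1 b.2 b.2 h2 g2 g4) g5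
    rw [← e]
    exact acc_of hA (hC.cl _ hb) g1 g3 (h := some b.2)
      (fun t ht => by rw [← Option.some.inj ht]; exact h2.1) (pa_of_pth g1 g4)
  obtain ⟨z, hz, hz'⟩ := hR X aX
  refine ⟨U, fun O hO => ?_⟩
  by_contra hc
  rcases O.eq_empty_or_nonempty with rfl | ⟨o, ho⟩
  · have CX : C ⊆ X := fun q hq => Set.nonempty_iff_ne_empty.2 fun h => hc ⟨q, hq, h⟩
    obtain ⟨v, -, g2, g3⟩ := hC.sc _ (hC.st z (XC hz) _ (lt_kill T)) z (XC hz)
    have g4 := WT.cons (lt_kill T) g2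
    exact rej_of hA (hC.cl z (XC hz)) (x := lt T (fun _ _ => False) :: v) (by simp) g3 g4.wk
      (no_pth_kill T v)
      (hz' _ ((hC.vis z (XC hz) g4).1.trans CX) (mem_vis δ z (by simp)))
  · obtain ⟨y, hy⟩ := hz
    have hz : z ∈ X := ⟨y, hy⟩
    let E : P → P → Prop := fun _ t => t ∈ O
    have hE : ∀ s t, E s t → t ∈ T := fun _ _ h => hO h
    have g1 : O ⊆ U (δ z (lt T E)) := fun t ht => tr _ _ _ hy (one z y E t hE ht)
    have g2 : ∃ t, t ∈ U (δ z (lt T E)) ∧ t ∉ O := by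
      by_contra g
      exact hc ⟨_, XC ⟨o, g1 ho⟩, Set.Subset.antisymm
        (fun t ht => by_contra fun h => g ⟨t, ht, h⟩) g1⟩
    obtain ⟨t, g2, g3⟩ := g2
    let E' : P → P → Prop := fun s s' => s = t ∧ s' = t
    have hE' : ∀ s s', E' s s' → s' ∈ T := fun _ _ h => h.2 ▸ g2.1
    have g4 : t ∈ U (δ (δ z (lt T E)) (lt T E')) := tr _ _ _ g2 (one _ t E' t hE' ⟨rfl, rfl⟩)
    obtain ⟨-, v, -, g6, g7, g8⟩ := tr _ _ _ (h3 _ g4) hy
    have g9 : WT T (lt T E :: lt T E' :: v) := WT.cons ⟨E, hE, rfl⟩ (WT.cons ⟨E', hE', rfl⟩ g6)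
    refine rej_of hA (hC.cl z (XC hz)) (x := lt T E :: lt T E' :: v) (by simp) g7 g9.wk ?_
      (hz' _ (Set.insert_subset hz (Set.insert_subset ⟨t, g2⟩ (visX v _ t y g4 g6 g8)))
        (mem_vis δ z (by simp)))
    rintro s b' ⟨d, k1, d', k2, -⟩
    rw [tr_lt] at k1 k2
    cases d with
    | none => exact k1
    | some s1 =>
      cases d' with
      | none => exact k2
      | some s2 => exact g3 (k2.1 ▸ k1)

/-- With edges back to the non-accepting state every class has a state outside the component. -/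
theorem star [Finite Q] (hA : ∀ w, Acc (InfS (run δ q0 w)) ↔ (BB P False).Accepts w) (x0 : P)
    {T : Set P} {C : Set Q} (hC : Bot False δ q0 T C) :
    ∃ q, Cl False δ q0 (ST T) q ∧ q ∉ C := by
  by_contra hc
  have hin : ∀ q, Cl False δ q0 (ST T) q → q ∈ C := fun q h => by_contra fun g => hc ⟨q, h, g⟩
  obtain ⟨z, hz⟩ := hC.ne
  let e : Le P := lt {x0} fun _ _ => False
  let k : Le P := lt T fun _ _ => False
  let g : Le P := fun _ b => b ∈ ST T
  have c1 : Cl False δ q0 (ST {x0}) (δ z e) := (hC.cl z hz).lt (lt_kill _)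
  have c2 : δ (δ z e) k ∈ C := hin _ (c1.lt (lt_kill _))
  have c3 : δ (δ z e) g ∈ C := hin _ (c1.step g fun b =>
    ⟨fun ⟨_, _, h⟩ => h.1, fun h => ⟨none, fun t ht => by simp at ht, h, False.elim⟩⟩)
  obtain ⟨v2, -, a2, b2⟩ := hC.sc _ c2 z hz
  obtain ⟨v3, -, a3, b3⟩ := hC.sc _ c3 z hz
  obtain ⟨x, ⟨g2, g3⟩, g5⟩ := big_loop δ z (fun x => WT T x ∧ dst δ z x = z)
    (fun x y hx hy => ⟨hx.1.app hy.1, by rw [dst_app, hx.2, hy.2]⟩) (fun x hx => hx.2) C
    ⟨[], WT.nil, rfl⟩ (by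
      intro p hp
      obtain ⟨y, -, k2, k3⟩ := hC.sc z hz p hp
      obtain ⟨y', k4, k5, k6⟩ := hC.sc p hp z hz
      refine ⟨y ++ y', ⟨k2.app k5, by rw [dst_app, k3, k6]⟩, ?_⟩
      rw [vis_app, k3]
      exact Or.inr (mem_vis δ p k4))
  have ev : ∀ (c : Le P) (v : List (Le P)), δ (δ z e) c ∈ C → WT T v →
      dst δ (δ (δ z e) c) v = z →
      vis δ z (e :: c :: (v ++ x)) = insert z (insert (δ z e) (vis δ z x)) ∧
      dst δ z (e :: c :: (v ++ x)) = z := by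
    intro c v h1 h2 h3
    constructor
    · show insert z (insert (δ z e) (vis δ (δ (δ z e) c) (v ++ x))) = _
      rw [vis_app, h3, Set.union_eq_self_of_subset_left ((hC.vis _ h1 h2).1.trans g5)]
    · show dst δ (δ (δ z e) c) (v ++ x) = z
      rw [dst_app, h3, g3]
  obtain ⟨e2, f2⟩ := ev k v2 c2 a2 b2
  obtain ⟨e3, f3⟩ := ev g v3 c3 a3 b3
  refine rej_of hA (hC.cl z hz) (by simp) f2
    (Wk.cons (fun _ => id) (WT.cons (lt_kill T) (a2.app g2)).wk) (no_pth_kill _ _) ?_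
  rw [e2, ← e3]
  refine acc_of hA (hC.cl z hz) (by simp) f3 (h := none) (fun t ht => by simp at ht) ?_
  exact ⟨some x0, (tr_lt ..).2 rfl, Or.inr ⟨none, ⟨fun t ht => by simp at ht, False.elim⟩,
    Or.inl ⟨by simp [BB], pth_none (a3.app g2)⟩⟩⟩

/-- A state of class `S` has an accepting loop below it, and its class is determined. -/
lemma cl_sub [Finite Q] (hA : ∀ w, Acc (InfS (run δ q0 w)) ↔ (BB P wk).Accepts w) (x0 : P)
    {S : Set (Option P)} {q : Q} (h : Cl wk δ q0 S q) {b : Option P} (hb : b ∈ S) :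
    (∃ v x, x ≠ [] ∧ Acc (vis δ (dst δ q v) x)) ∧ ∀ S', Cl wk δ q0 S' q → b ∈ S' := by
  let g : Le P := fun a d => a = b ∧ d = some x0
  let l : Le P := fun a d => a = some x0 ∧ d = some x0
  let R : Q → Q → Prop := fun q q' => ∃ x, x ≠ [] ∧ (∀ c ∈ x, c = l) ∧ dst δ q x = q'
  have tr : ∀ a b c, R a b → R b c → R a c := by
    rintro a _ _ ⟨x, h1, h2, rfl⟩ ⟨y, -, h4, rfl⟩
    exact ⟨x ++ y, by simp [h1], fun c hc => (List.mem_append.1 hc).elim (h2 c) (h4 c), dst_app ..⟩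
  have ser : ∀ a, ∃ b, R a b := fun a => ⟨_, [l], by simp, by simp, rfl⟩
  obtain ⟨_, ⟨v, -, h2, rfl⟩, ⟨x, h3, h4, h5⟩, -⟩ := bottom R tr (δ q g) (fun y _ => ser y) (ser _)
  have pl : ∀ x : List (Le P), (∀ c ∈ x, c = l) → Pth (BB P wk) (some x0) x (some x0) := by
    intro x
    induction x with
    | nil => intro _; rfl
    | cons c x ih =>
      intro hx
      refine ⟨some x0, ?_, ih fun c hc => hx c (List.mem_cons_of_mem _ hc)⟩
      rw [hx c (List.mem_cons_self ..)]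
      exact ⟨⟨rfl, rfl⟩, by simp⟩
  obtain ⟨u, rfl, hu⟩ := h
  have e : ∀ u', dst δ q0 u' = dst δ q0 u →
      dst δ q0 (u' ++ g :: v) = dst δ (δ (dst δ q0 u) g) v := by
    intro u' h; rw [dst_app, h]; rfl
  have ac : Acc (vis δ (dst δ (δ (dst δ q0 u) g) v) x) := by
    obtain ⟨w, e1, k1, -⟩ := lasso_facts δ q0 (BB P wk) (u ++ g :: v) x h3 (by rw [e u rfl, h5])
    rw [← e u rfl, ← e1, hA]
    exact k1 ⟨some x0, (pth_app ..).2 ⟨b, (hu b).2 hb, some x0, ⟨⟨rfl, rfl⟩, by simp⟩, pl v h2⟩,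
      pa_of_pth h3 (pl x h4)⟩
  refine ⟨⟨g :: v, x, h3, ac⟩, ?_⟩
  rintro S' ⟨u', k2, k3⟩
  obtain ⟨w, e1, -, k1⟩ := lasso_facts δ q0 (BB P wk) (u' ++ g :: v) x h3 (by rw [e u' k2, h5])
  rw [← e u' k2, ← e1, hA] at ac
  obtain ⟨c, k4, -⟩ := k1 ac
  obtain ⟨d, k5, d', k6, -⟩ := (pth_app ..).1 k4
  rw [← k6.1.1]
  exact (k3 d).1 k5

lemma cl_ex (S : Set (Option P)) : ∃ q, Cl wk δ q0 S q := by
  refine ⟨δ q0 (fun _ b => b ∈ S), Cl.step (S := {none}) ⟨[], rfl, fun b => ?_⟩ _ fun b => ?_⟩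
  · exact eq_comm
  · exact ⟨fun ⟨_, _, h⟩ => h.1, fun h => ⟨none, rfl, h, fun _ _ => rfl⟩⟩

end

end Pool.Agent.MP_0f075e_lc.W55
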