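import Mathlib.Data.Set.Card
import Mathlib.Data.Fintype.Powerset
import Mathlib.SetTheory.Cardinal.NatCard
import Mathlib.Data.Finite.Sum
import Mathlib.Data.Finite.Prod
import Mathlib.Data.Fintype.BigOperators
import Pool.Agent.MP_0f075e_lc.Upper

/-! Upper bounds: a breakpoint automaton that drops the breakpoint set after good steps. -/

namespace Pool.Agent.MP_0f075e_lc.W55

open Pool.Agent.MP_0f075e_lc

section
variable {A Q : Type} (B : NBA A Q) (good : Set Q → A → Prop)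

def post (S : Set Q) (a : A) : Set Q := {q | ∃ p ∈ S, B.tr p a q}

abbrev St (Q : Type) := Set Q × Option (Set Q)

def base (x : St Q) : Set Q := {q | q ∈ x.1 ∧ ∀ O, x.2 = some O → O.Nonempty → q ∈ O}

open Classical in
noncomputable def nxt (x : St Q) (a : A) : St Q :=
  (post B x.1 a, if good x.1 a then none else some (B.acc ∩ post B (base x) a))

open Classical in
noncomputable def ini : St Q := ({B.start}, if B.start ∈ B.acc then none else some ∅)

noncomputable def trc (w : ℕ → A) : ℕ → St Q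
  | 0 => ini B
  | i + 1 => nxt B good (trc w i) (w i)

def Cnd (w : ℕ → A) : Prop :=
  (∀ i, (trc B good w i).1.Nonempty) ∧ ((∀ N, ∃ i, N ≤ i ∧ (trc B good w i).2 = none) ∨
    ∃ N, ∀ i, N ≤ i → (trc B good w i).2 ≠ some ∅)

lemma nxt_none {x : St Q} {a : A} : (nxt B good x a).2 = none ↔ good x.1 a := by
  unfold nxt
  by_cases h : good x.1 a <;> simp [h]

lemma nxt_some {x : St Q} {a : A} (h : ¬ good x.1 a) :
    (nxt B good x a).2 = some (B.acc ∩ post B (base x) a) := by
  unfold nxt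
  simp [h]

lemma snd [Finite Q]
    (hg : ∀ S a, good S a → ∀ s ∈ post B S a, s ∈ B.acc ∨ ∃ p ∈ S, p ∈ B.acc ∧ B.tr p a s)
    (w : ℕ → A) (h : Cnd B good w) : B.Accepts w := by
  obtain ⟨h1, h2⟩ := h
  by_cases h3 : ∀ N, ∃ i, N ≤ i ∧ (trc B good w i).2 = none
  · obtain ⟨ρ, hρ⟩ := konig (fun t => (trc B good w t).1)
      (fun t a b => B.tr a (w t) b ∧
        ((∃ p ∈ (trc B good w t).1, p ∈ B.acc ∧ B.tr p (w t) b) → a ∈ B.acc)) h1 (by
        intro t b hb
        by_cases h4 : ∃ p ∈ (trc B good w t).1, p ∈ B.acc ∧ B.tr p (w t) b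
        · obtain ⟨p, k1, k2, k3⟩ := h4
          exact ⟨p, k1, k3, fun _ => k2⟩
        · obtain ⟨p, k1, k2⟩ := hb
          exact ⟨p, k1, k2, fun h => absurd h h4⟩)
    refine ⟨ρ, (hρ 0).1, fun i => (hρ i).2.1, fun N => ?_⟩
    obtain ⟨i, hi, h4⟩ := h3 (N + 1)
    obtain ⟨j, rfl⟩ : ∃ j, i = j + 1 := ⟨i - 1, by omega⟩
    rcases hg _ _ ((nxt_none B good).1 h4) _ (hρ (j + 1)).1 with h5 | h5
    · exact ⟨j + 1, by omega, h5⟩
    · exact ⟨j, by omega, (hρ j).2.2 h5⟩
  · obtain ⟨N2, h4⟩ := h2.resolve_left h3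
    push Not at h3
    obtain ⟨N1, h3⟩ := h3
    have key : ∀ j, N1 + N2 ≤ j → base (trc B good w (j + 1)) =
        B.acc ∩ post B (base (trc B good w j)) (w j) ∧ (base (trc B good w (j + 1))).Nonempty := by
      intro j hj
      have k1 : (trc B good w (j + 1)).2 = some (B.acc ∩ post B (base (trc B good w j)) (w j)) :=
        nxt_some B good fun h => h3 (j + 1) (by omega) ((nxt_none B good).2 h)
      have k2 : (B.acc ∩ post B (base (trc B good w j)) (w j)).Nonempty :=
        Set.nonempty_iff_ne_empty.2 fun h => h4 (j + 1) (by omega) (by rw [k1, h])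
      have k3 : base (trc B good w (j + 1)) = B.acc ∩ post B (base (trc B good w j)) (w j) := by
        ext q
        refine ⟨fun h => h.2 _ k1 k2, fun h => ⟨?_, fun O hO _ => ?_⟩⟩
        · obtain ⟨p, k4, k5⟩ := h.2
          exact ⟨p, k4.1, k5⟩
        · rw [k1] at hO; rw [← Option.some.inj hO]; exact h
      exact ⟨k3, k3 ▸ k2⟩
    obtain ⟨ρ, hρ⟩ := konig
      (fun t => if N1 + N2 < t then base (trc B good w t) else (trc B good w t).1)
      (fun t a b => B.tr a (w t) b) (by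
        intro t
        split_ifs with h
        · obtain ⟨j, rfl⟩ : ∃ j, t = j + 1 := ⟨t - 1, by omega⟩
          exact (key j (by omega)).2
        · exact h1 t) (by
        intro t b hb
        by_cases h : N1 + N2 < t
        · rw [if_pos (by omega), (key t (by omega)).1] at hb
          rw [if_pos h]; exact hb.2
        · rw [if_neg h]
          split_ifs at hb
          · exact hb.1
          · exact hb)
    refine ⟨ρ, ?_, fun i => (hρ i).2, fun N => ⟨N1 + N2 + N + 1, by omega, ?_⟩⟩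
    · have := (hρ 0).1
      rw [if_neg (by omega)] at this
      exact this
    · have := (hρ (N1 + N2 + N + 1)).1
      rw [if_pos (by omega), (key _ (by omega)).1] at this
      exact this.1

lemma cmp
    (hc : ∀ (w : ℕ → A) (ρ : ℕ → Q) (S : ℕ → Set Q), (∀ i, ρ i ∈ S i) →
      (∀ i, B.tr (ρ i) (w i) (ρ (i + 1))) → (∀ N, ∃ i, N ≤ i ∧ ρ i ∈ B.acc) →
      (∃ N, ∀ i, N ≤ i → ¬ good (S i) (w i)) → ∃ N, ∀ i, N ≤ i → ρ i ∈ B.acc)
    (w : ℕ → A) (h : B.Accepts w) : Cnd B good w := by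
  obtain ⟨ρ, h0, h1, h2⟩ := h
  have hS : ∀ i, ρ i ∈ (trc B good w i).1 := by
    intro i
    induction i with
    | zero => exact h0
    | succ i ih => exact ⟨_, ih, h1 i⟩
  refine ⟨fun i => ⟨_, hS i⟩, ?_⟩
  by_cases h3 : ∀ N, ∃ i, N ≤ i ∧ (trc B good w i).2 = none
  · exact Or.inl h3
  right
  push Not at h3
  obtain ⟨N1, h3⟩ := h3
  have ng : ∀ i, N1 ≤ i → ¬ good (trc B good w i).1 (w i) :=
    fun i hi h => h3 (i + 1) (by omega) ((nxt_none B good).2 h)
  obtain ⟨N2, h4⟩ := hc w ρ _ hS h1 h2 ⟨N1, ng⟩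
  by_cases h5 : ∃ i, N1 + N2 ≤ i ∧ (trc B good w i).2 = some ∅
  · obtain ⟨i, hi, h5⟩ := h5
    have st : ∀ j, i ≤ j → ρ j ∈ base (trc B good w j) →
        ρ (j + 1) ∈ B.acc ∩ post B (base (trc B good w j)) (w j) :=
      fun j hj h => ⟨h4 _ (by omega), _, h, h1 j⟩
    have al : ∀ k, ρ (i + k) ∈ base (trc B good w (i + k)) := by
      intro k
      induction k with
      | zero =>
        refine ⟨hS _, fun O hO hn => ?_⟩
        rw [Nat.add_zero, h5] at hO
        rw [← Option.some.inj hO] at hn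
        exact absurd hn Set.not_nonempty_empty
      | succ k ih =>
        refine ⟨hS _, fun O hO _ => ?_⟩
        have := nxt_some B good (ng (i + k) (by omega))
        rw [show (nxt B good (trc B good w (i + k)) (w (i + k))).2 = some O from hO] at this
        rw [Option.some.inj this]
        exact st _ (by omega) ih
    refine ⟨i + 1, fun j hj h => ?_⟩
    obtain ⟨k, rfl⟩ : ∃ k, j = i + k + 1 := ⟨j - (i + 1), by omega⟩
    have := nxt_some B good (ng (i + k) (by omega))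
    rw [show (nxt B good (trc B good w (i + k)) (w (i + k))).2 = some ∅ from h] at this
    have h6 := st _ (by omega) (al k)
    rw [← Option.some.inj this] at h6
    exact h6
  · exact ⟨N1 + N2, fun i hi h => h5 ⟨i, hi, h⟩⟩

/-- The states in use. -/
def GS (H : Set Q → Prop) : Set (St Q) :=
  {x | x.1.Nonempty ∧ ((x.2 = none ∧ H x.1) ∨
    ∃ O, x.2 = some O ∧ ¬ x.1 ⊆ B.acc ∧ O ⊆ x.1 ∩ B.acc)}

lemma sdra_of [Finite Q] (H : Set Q → Prop) (h0 : B.start ∈ B.acc → H {B.start})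
    (h1 : ∀ S a, good S a → H (post B S a)) (h2 : ∀ S a, post B S a ⊆ B.acc → good S a) :
    ∃ D : SDRA A (Fin (Nat.card (GS B H))), ∀ w, D.Accepts w ↔ Cnd B good w := by
  classical
  let e := Finite.equivFin (GS B H)
  have hes : ∀ (x : St Q) (h : x ∈ GS B H), (e.symm (e ⟨x, h⟩)).1 = x :=
    fun x h => congrArg Subtype.val (e.symm_apply_apply ⟨x, h⟩)
  have m0 : ini B ∈ GS B H := by
    refine ⟨⟨_, rfl⟩, ?_⟩
    by_cases h : B.start ∈ B.acc
    · exact Or.inl ⟨if_pos h, h0 h⟩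
    · exact Or.inr ⟨∅, if_neg h, fun g => h (g rfl), Set.empty_subset _⟩
  have m1 : ∀ x a, (nxt B good x a).1.Nonempty → nxt B good x a ∈ GS B H := by
    intro x a hn
    refine ⟨hn, ?_⟩
    by_cases h : good x.1 a
    · exact Or.inl ⟨(nxt_none B good).2 h, h1 _ _ h⟩
    · refine Or.inr ⟨_, nxt_some B good h, fun g => h (h2 _ _ g), ?_⟩
      rintro q ⟨k1, p, k2, k3⟩
      exact ⟨⟨p, k2.1, k3⟩, k1⟩
  refine ⟨⟨e ⟨_, m0⟩, fun q c => if h : nxt B good (e.symm q).1 c ∈ GS B H
      then some (e ⟨_, h⟩) else none,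
      {(∅, {q | (e.symm q).1.2 = none}), ({q | (e.symm q).1.2 = some ∅}, Set.univ)}⟩, fun w => ?_⟩
  constructor
  · rintro ⟨r, k0, k1, p, hp, k2, N, k3⟩
    have hr : ∀ i, (e.symm (r i)).1 = trc B good w i := by
      intro i
      induction i with
      | zero => rw [k0]; exact hes _ m0
      | succ i ih =>
        have := k1 i
        simp only at this
        split_ifs at this with h
        rw [← Option.some.inj this, Equiv.symm_apply_apply]
        show nxt B good (e.symm (r i)).1 (w i) = _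
        rw [ih]; rfl
    refine ⟨fun i => hr i ▸ (e.symm (r i)).2.1, ?_⟩
    rcases hp with rfl | rfl
    · left
      intro M
      obtain ⟨i, hi, h⟩ := k2 M
      exact ⟨i, hi, hr i ▸ h⟩
    · right
      exact ⟨N, fun i hi h => k3 i hi (show (e.symm (r i)).1.2 = some ∅ from hr i ▸ h)⟩
  · rintro ⟨k1, k2⟩
    have hm : ∀ i, trc B good w i ∈ GS B H := by
      intro i
      cases i with
      | zero => exact m0
      | succ i => exact m1 _ _ (k1 (i + 1))
    refine ⟨fun i => e ⟨_, hm i⟩, rfl, fun i => ?_, ?_⟩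
    · simp only [Equiv.symm_apply_apply]
      rw [dif_pos (show nxt B good (trc B good w i) (w i) ∈ GS B H from hm (i + 1))]
      rfl
    · rcases k2 with k2 | ⟨N, k2⟩
      · refine ⟨_, Or.inl rfl, fun M => ?_, 0, fun _ _ h => h⟩
        obtain ⟨i, hi, h⟩ := k2 M
        exact ⟨i, hi, (congrArg Prod.snd (hes _ (hm i))).trans h⟩
      · exact ⟨_, Or.inr rfl, fun M => ⟨M, le_rfl, trivial⟩, N, fun i hi h =>
          k2 i hi ((congrArg Prod.snd (hes _ (hm i))).symm.trans h)⟩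

lemma card_ne (X : Type) [Finite X] :
    Nat.card {R : Set X // R.Nonempty} = 2 ^ Nat.card X - 1 := by
  classical
  have := Fintype.ofFinite X
  simp only [Set.nonempty_iff_ne_empty, Nat.card_eq_fintype_card]
  rw [Fintype.card_subtype_compl, Fintype.card_subtype_eq, Fintype.card_set]

lemma card_three (X : Type) [Finite X] : Nat.card (X → Option Prop) = 3 ^ Nat.card X := by
  classical
  have := Fintype.ofFinite X
  simp [Nat.card_eq_fintype_card]

lemma card_GS [Finite Q] (Y : Set Q) :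
    Nat.card (GS B (· ⊆ Y)) ≤
      2 ^ Nat.card Y - 1 + (2 ^ Nat.card (B.accᶜ : Set Q) - 1) * 3 ^ Nat.card B.acc := by
  classical
  rw [← card_ne, ← card_ne, ← card_three, ← Nat.card_prod, ← Nat.card_sum]
  have ne1 : ∀ x : GS B (· ⊆ Y), x.1.2 = none → {q : Y | q.1 ∈ x.1.1}.Nonempty := by
    intro x h'
    obtain ⟨⟨q, hq⟩, ⟨-, h⟩ | ⟨O, h, -⟩⟩ := x.2
    · exact ⟨⟨q, h hq⟩, hq⟩
    · rw [h] at h'; simp at h'
  have ne2 : ∀ x : GS B (· ⊆ Y), x.1.2 ≠ none →
      {q : (B.accᶜ : Set Q) | q.1 ∈ x.1.1}.Nonempty := by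
    intro x h'
    obtain ⟨-, ⟨h, -⟩ | ⟨O, -, h, -⟩⟩ := x.2
    · exact absurd h h'
    · obtain ⟨q, k1, k2⟩ := Set.not_subset.1 h
      exact ⟨⟨q, k2⟩, k1⟩
  refine Nat.card_le_card_of_injective (fun x => if h : x.1.2 = none then Sum.inl ⟨_, ne1 x h⟩
    else Sum.inr (⟨_, ne2 x h⟩, fun q => if q.1 ∈ x.1.1 then some (∃ O, x.1.2 = some O ∧ q.1 ∈ O)
      else none)) ?_
  rintro ⟨⟨S, o⟩, hx⟩ ⟨⟨S', o'⟩, hy⟩ h
  simp only at h
  split_ifs at h with h1 h2 h2
  · have k := congrArg Subtype.val (Sum.inl.inj h)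
    subst h1 h2
    have k1 : S ⊆ Y := by
      rcases hx.2 with ⟨-, h⟩ | ⟨O, h, -⟩
      · exact h
      · simp at h
    have k2 : S' ⊆ Y := by
      rcases hy.2 with ⟨-, h⟩ | ⟨O, h, -⟩
      · exact h
      · simp at h
    have : S = S' := by
      ext q
      exact ⟨fun hq => (Set.ext_iff.1 k ⟨q, k1 hq⟩).1 hq, fun hq => (Set.ext_iff.1 k ⟨q, k2 hq⟩).2 hq⟩
    subst this; rfl
  · obtain ⟨k1, k2⟩ := Prod.mk.inj (Sum.inr.inj h)
    have k1 := congrArg Subtype.val k1
    obtain ⟨O, rfl, -, hO⟩ := hx.2.resolve_left fun g => h1 g.1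
    obtain ⟨O', rfl, -, hO'⟩ := hy.2.resolve_left fun g => h2 g.1
    have e1 : S = S' := by
      ext q
      by_cases hq : q ∈ B.acc
      · have := congrFun k2 ⟨q, hq⟩
        by_cases a1 : q ∈ S <;> by_cases a2 : q ∈ S' <;> simp_all
      · exact Set.ext_iff.1 k1 ⟨q, hq⟩
    subst e1
    have e2 : O = O' := by
      ext q
      by_cases hq : q ∈ S ∩ B.acc
      · have := congrFun k2 ⟨q, hq.2⟩
        simpa [hq.1] using this
      · exact ⟨fun g => absurd (hO g) hq, fun g => absurd (hO' g) hq⟩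
    subst e2; rfl

end

end Pool.Agent.MP_0f075e_lc.W55
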