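import Mathlib.Logic.Equiv.Fin.Basic
import Pool.Agent.MP_0f075e_lc.W55.DefW
import Pool.Agent.MP_0f075e_lc.W55.DefO
import Pool.Agent.MP_0f075e_lc.W55.Low
import Pool.Agent.MP_0f075e_lc.W55.Up

/-! The two exact values. -/

namespace Pool.Agent.MP_0f075e_lc.W55

open Pool.Agent.MP_0f075e_lc

lemma pigeon {Q : Type} [Finite Q] (ρ : ℕ → Q) (X : Set Q) (h : ∀ N, ∃ i, N ≤ i ∧ ρ i ∈ X) :
    ∃ p ∈ X, ∀ N, ∃ i, N ≤ i ∧ ρ i = p := by
  by_contra hc
  have : ∀ q, ∃ N, q ∈ X → ∀ i, N ≤ i → ρ i ≠ q := by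
    intro q
    by_cases hq : q ∈ X
    · by_contra g
      refine hc ⟨q, hq, fun N => by_contra fun g' => g ⟨N, fun _ i hi e => g' ⟨i, hi, e⟩⟩⟩
    · exact ⟨0, fun h => absurd h hq⟩
  choose f hf using this
  obtain ⟨M, hM⟩ := (Set.finite_range f).bddAbove
  obtain ⟨i, hi, h⟩ := h M
  exact hf _ h i ((hM ⟨_, rfl⟩).trans hi) rfl

lemma two_three (r : ℕ) : 2 ^ (r + 1) - 1 ≤ 3 ^ r := by
  induction r with
  | zero => simp
  | succ r ih =>
    have : 1 ≤ 3 ^ r := Nat.one_le_pow _ _ (by norm_num)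
    rw [pow_succ 2 (r + 1), pow_succ 3 r]
    omega

lemma card_split {n : ℕ} (X : Set (Fin n)) : Nat.card X + Nat.card (Xᶜ : Set (Fin n)) = n := by
  have := Set.ncard_add_ncard_compl X
  simpa [Nat.card_coe_set_eq] using this

lemma upper_weak {A : Type} {m : ℕ} (B : NBA A (Fin (m + 1))) (hB : B.Weak) :
    ∃ k ≤ 3 ^ m + 2 ^ m - 1, ∃ D : SDRA A (Fin k), ∀ w, D.Accepts w ↔ B.Accepts w := by
  obtain ⟨D, hD⟩ := sdra_of B (fun S a => post B S a ⊆ B.acc) (· ⊆ B.acc)
    (fun h => Set.singleton_subset_iff.2 h) (fun _ _ h => h) (fun _ _ h => h)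
  refine ⟨_, (card_GS B B.acc).trans ?_, D, fun w => (hD w).trans
    ⟨snd B _ (fun S a h s hs => Or.inl (h hs)) w, cmp B _ ?_ w⟩⟩
  · have h1 := card_split B.acc
    generalize Nat.card B.acc = a at *
    generalize Nat.card (B.accᶜ : Set (Fin (m + 1))) = r at *
    rcases r with _ | r
    · obtain rfl : a = m + 1 := by omega
      have : 2 ^ m ≤ 3 ^ m := Nat.pow_le_pow_left (by norm_num) m
      rw [pow_succ 2 m]
      simp only [pow_zero, Nat.sub_self, zero_mul]
      omega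
    · obtain rfl : m = r + a := by omega
      have h2 : (2 ^ (r + 1) - 1) * 3 ^ a ≤ 3 ^ (r + a) := by
        rw [pow_add 3]; exact Nat.mul_le_mul_right _ (two_three r)
      have h3 : 2 ^ a ≤ 2 ^ (r + a) := Nat.pow_le_pow_right (by norm_num) (by omega)
      have h4 : 1 ≤ 2 ^ a := Nat.one_le_two_pow
      omega
  · intro w ρ _ _ h1 h2 _
    by_contra hc
    have h3 : ∀ N, ∃ i, N ≤ i ∧ ρ i ∈ B.accᶜ := fun N =>
      by_contra fun g => hc ⟨N, fun i hi => by_contra fun g' => g ⟨i, hi, g'⟩⟩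
    obtain ⟨p, hp, h4⟩ := pigeon ρ _ h2
    obtain ⟨q, hq, h5⟩ := pigeon ρ _ h3
    have re : ∀ i j, i ≤ j → B.Reach (ρ i) (ρ j) := by
      intro i j h
      induction h with
      | refl => exact Relation.ReflTransGen.refl
      | step _ ih => exact ih.tail ⟨_, h1 _⟩
    obtain ⟨i, -, e1⟩ := h4 0
    obtain ⟨j, hj, e2⟩ := h5 i
    obtain ⟨l, hl, e3⟩ := h4 j
    have k1 := re i j hj
    have k2 := re j l hl
    rw [e1, e2] at k1
    rw [e2, e3] at k2
    exact hq ((hB p q k1 k2).1 hp)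

lemma upper_one {A : Type} {m : ℕ} (B : NBA A (Fin (m + 1))) (hB : B.OneRej) :
    ∃ k ≤ 3 ^ m + 2 ^ (m + 1) - 1, ∃ D : SDRA A (Fin k), ∀ w, D.Accepts w ↔ B.Accepts w := by
  obtain ⟨D, hD⟩ := sdra_of B
    (fun S a => ∀ s ∈ post B S a, s ∈ B.acc ∨ ∃ p ∈ S, p ∈ B.acc ∧ B.tr p a s) (· ⊆ Set.univ)
    (fun _ => Set.subset_univ _) (fun _ _ _ => Set.subset_univ _)
    (fun _ _ h s hs => Or.inl (h hs))
  refine ⟨_, (card_GS B Set.univ).trans ?_, D, fun w => (hD w).trans
    ⟨snd B _ (fun S a h => h) w, cmp B _ ?_ w⟩⟩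
  · have h1 := card_split B.acc
    have h0 : Nat.card (B.accᶜ : Set (Fin (m + 1))) ≤ 1 :=
      Finite.card_le_one_iff_subsingleton.2 ⟨fun p q => Subtype.ext (hB _ _ p.2 q.2)⟩
    have h2 : Nat.card (Set.univ : Set (Fin (m + 1))) = m + 1 := by simp
    rw [h2]
    generalize Nat.card B.acc = a at *
    generalize Nat.card (B.accᶜ : Set (Fin (m + 1))) = r at *
    have h4 : 1 ≤ 2 ^ (m + 1) := Nat.one_le_two_pow
    rcases r with _ | r
    · simp only [pow_zero, Nat.sub_self, zero_mul]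
      exact Nat.sub_le_sub_right (Nat.le_add_left _ _) 1
    · obtain rfl : r = 0 := by omega
      obtain rfl : a = m := by omega
      simp only [zero_add, pow_one, Nat.add_one_sub_one, one_mul]
      omega
  · rintro w ρ S h0 h1 h2 ⟨N, h3⟩
    obtain ⟨i, hi, h4⟩ := h2 N
    refine ⟨i, fun j hj => ?_⟩
    induction hj with
    | refl => exact h4
    | @step j hj ih =>
      by_contra hc
      refine h3 j (hi.trans hj) fun s _ => ?_
      by_cases hs : s ∈ B.acc
      · exact Or.inl hs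
      · exact Or.inr ⟨ρ j, h0 j, ih, hB _ _ hc hs ▸ h1 j⟩

section
variable {P Q : Type} {wk : Prop} {δ : Q → Le P → Q} {q0 : Q} {Acc : Set Q → Prop}

lemma cl_eq [Finite Q] (hA : ∀ w, Acc (InfS (run δ q0 w)) ↔ (BB P wk).Accepts w) (x0 : P)
    {S S' : Set (Option P)} {q : Q} (h : Cl wk δ q0 S q) (h' : Cl wk δ q0 S' q) : S = S' :=
  Set.Subset.antisymm (fun _ hb => (cl_sub hA x0 h hb).2 _ h') fun _ hb => (cl_sub hA x0 h' hb).2 _ h

lemma ST_inj {T T' : Set P} (h : ST T = ST T') : T = T' := by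
  ext t
  have := Set.ext_iff.1 h (some t)
  simpa [ST] using this

lemma none_ST (T : Set P) : none ∈ ST T := fun t ht => by simp at ht

lemma low1 [Finite Q] [Finite P] (hA : ∀ w, Acc (InfS (run δ q0 w)) ↔ (BB P wk).Accepts w)
    (hR : ∀ C, Acc C → ∃ z ∈ C, ∀ C' ⊆ C, z ∈ C' → Acc C') (x0 : P) (C : Set P → Set Q)
    (hC : ∀ T, Bot wk δ q0 T (C T)) :
    ∃ g : {R : Set P // R.Nonempty} ⊕ (P → Option Prop) → Q, Function.Injective g ∧
      (∀ i, ∃ S : Set (Option P), S.Nonempty ∧ Cl wk δ q0 S (g i)) ∧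
      ∀ i T, Cl wk δ q0 (ST T) (g i) → g i ∈ C T := by
  choose U hU using fun T => core hA hR (hC T)
  choose g1 hg1 using fun S => cl_ex (wk := wk) (δ := δ) (q0 := q0) S
  have sub : ∀ f : P → Option Prop, {p | f p = some True} ⊆ {p | f p ≠ none} := by
    intro f p hp h
    rw [show f p = some True from hp] at h
    simp at h
  choose g2 hg2 hg3 using fun f : P → Option Prop => hU {p | f p ≠ none} _ (sub f)
  have c2 : ∀ f, Cl wk δ q0 (ST {p | f p ≠ none}) (g2 f) := fun f => (hC _).cl _ (hg2 f)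
  have ne : ∀ (R : Set P) T q, Cl wk δ q0 (some '' R) q → Cl wk δ q0 (ST T) q → False := by
    intro R T q h h'
    have := none_ST T
    rw [← cl_eq hA x0 h h'] at this
    simp at this
  refine ⟨Sum.elim (fun R => g1 (some '' R.1)) g2, ?_, ?_, ?_⟩
  · rintro (R | f) (R' | f') h
    · have h' : g1 (some '' R.1) = g1 (some '' R'.1) := h
      have := cl_eq hA x0 (hg1 (some '' R.1)) (h' ▸ hg1 (some '' R'.1))
      rw [Subtype.ext ((Set.image_injective.2 (Option.some_injective P)) this)]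
    · have h' : g1 (some '' R.1) = g2 f' := h
      exact (ne _ _ _ (hg1 _) (h' ▸ c2 f')).elim
    · have h' : g2 f = g1 (some '' R'.1) := h
      exact (ne _ _ _ (hg1 _) (h' ▸ c2 f)).elim
    · have h' : g2 f = g2 f' := h
      have e1 := ST_inj (cl_eq hA x0 (c2 f) (h' ▸ c2 f'))
      have e2 : {p | f p = some True} = {p | f' p = some True} := by
        rw [← hg3 f, ← hg3 f', e1, h']
      congr 1
      funext p
      have k1 := Set.ext_iff.1 e1 p
      have k2 := Set.ext_iff.1 e2 p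
      simp only [Set.mem_ofPred_eq] at k1 k2
      rcases a1 : f p with _ | a <;> rcases a2 : f' p with _ | b <;> simp_all
  · rintro (R | f)
    · exact ⟨_, R.2.image _, hg1 _⟩
    · exact ⟨_, ⟨_, none_ST _⟩, c2 f⟩
  · rintro (R | f) T h
    · exact (ne _ _ _ (hg1 _) h).elim
    · rw [← ST_inj (cl_eq hA x0 (c2 f) h)]
      exact hg2 f

lemma cnt {k : ℕ} (D : SDRA (Le P) (Fin k)) (hD : ∀ w, D.Accepts w ↔ (BB P wk).Accepts w) (x0 : P)
    {I : Type} (g : I → Option (Fin k)) (h1 : Function.Injective g)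
    (h2 : ∀ i, ∃ S : Set (Option P), S.Nonempty ∧ Cl wk (dl D) (some D.start) S (g i)) :
    Nat.card I ≤ k := by
  have hn : ∀ i, ∃ z, g i = some z := by
    intro i
    obtain ⟨S, ⟨b, hb⟩, h⟩ := h2 i
    obtain ⟨v, x, h3, h4⟩ :=
      (cl_sub (Acc := AccD D) (fun w => (muller' D w).trans (hD w)) x0 h hb).1
    rcases h5 : g i with _ | z
    · rw [h5, dst_none] at h4
      exact (h4.1 (mem_vis _ _ h3)).elim
    · exact ⟨z, rfl⟩
  choose z hz using hn
  have := Nat.card_le_card_of_injective z fun i j h => h1 (by rw [hz, hz, h])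
  simpa using this

end

lemma lower_weak {m k : ℕ} (D : SDRA (Le (Fin (m + 1))) (Fin k)) {wk : Prop}
    (hD : ∀ w, D.Accepts w ↔ (BB _ wk).Accepts w) : 3 ^ (m + 1) + 2 ^ (m + 1) - 1 ≤ k := by
  have hA := fun w => (muller' D w).trans (hD w)
  choose C hC using fun T => bot_ex (wk := wk) (δ := dl D) (q0 := some D.start) T
  obtain ⟨g, h1, h2, -⟩ := low1 hA (accD_rabin D) 0 C hC
  have := cnt D hD 0 g h1 h2
  rw [Nat.card_sum, card_ne, card_three] at this
  have h4 : 1 ≤ 2 ^ (m + 1) := Nat.one_le_two_pow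
  simp only [Nat.card_eq_fintype_card, Fintype.card_fin] at this
  omega

lemma lower_one {m k : ℕ} (D : SDRA (Le (Fin (m + 1))) (Fin k))
    (hD : ∀ w, D.Accepts w ↔ (BB _ False).Accepts w) : 3 ^ (m + 1) + 2 ^ (m + 2) - 1 ≤ k := by
  have hA := fun w => (muller' D w).trans (hD w)
  choose C hC using fun T => bot_ex (wk := False) (δ := dl D) (q0 := some D.start) T
  obtain ⟨g, h1, h2, h3⟩ := low1 hA (accD_rabin D) 0 C hC
  choose g' h4 h5 using fun T => star hA 0 (hC T)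
  have := cnt D hD 0 (Sum.elim g g') (by
    rintro (i | T) (j | T') h
    · rw [h1 h]
    · have h' : g i = g' T' := h
      exact (h5 T' (h' ▸ h3 i T' (h' ▸ h4 T'))).elim
    · have h' : g' T = g j := h
      exact (h5 T (h' ▸ h3 j T (h' ▸ h4 T))).elim
    · have h' : g' T = g' T' := h
      rw [ST_inj (cl_eq hA 0 (h4 T) (h' ▸ h4 T'))]) (by
    rintro (i | T)
    · exact h2 i
    · exact ⟨_, ⟨_, none_ST _⟩, h4 T⟩)
  rw [Nat.card_sum, Nat.card_sum, card_ne, card_three] at this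
  have h6 : 1 ≤ 2 ^ (m + 1) := Nat.one_le_two_pow
  simp only [Nat.card_eq_fintype_card, Fintype.card_fin, Fintype.card_set] at this
  rw [pow_succ 2 (m + 1)]
  omega

/-- The full automaton on `Fin (m + 1)`. -/
def BF (m : ℕ) (wk : Prop) : NBA (Le (Fin m)) (Fin (m + 1)) :=
  ⟨(finSuccEquiv m).symm none, fun a c b => (BB _ wk).tr (finSuccEquiv m a) c (finSuccEquiv m b),
    {a | finSuccEquiv m a ≠ none}⟩

lemma BF_acc (m : ℕ) (wk : Prop) (w : ℕ → Le (Fin m)) :
    (BF m wk).Accepts w ↔ (BB _ wk).Accepts w := by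
  constructor
  · rintro ⟨r, h0, h1, h2⟩
    exact ⟨fun i => finSuccEquiv m (r i),
      (congrArg (finSuccEquiv m) h0).trans (Equiv.apply_symm_apply _ _), h1, h2⟩
  · rintro ⟨r, h0, h1, h2⟩
    refine ⟨fun i => (finSuccEquiv m).symm (r i), congrArg (finSuccEquiv m).symm h0,
      fun i => ?_, fun N => ?_⟩
    · simpa only [BF, Equiv.apply_symm_apply] using h1 i
    · obtain ⟨i, hi, h⟩ := h2 N
      refine ⟨i, hi, ?_⟩
      show finSuccEquiv m ((finSuccEquiv m).symm (r i)) ≠ none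
      rw [Equiv.apply_symm_apply]; exact h

lemma BF_weak (m : ℕ) : (BF m True).Weak := by
  have : ∀ p q, (BF m True).Reach p q → finSuccEquiv m q = none → finSuccEquiv m p = none := by
    intro p q h
    induction h with
    | refl => exact id
    | tail _ h ih =>
      obtain ⟨a, h⟩ := h
      exact fun g => ih (h.2 trivial g)
  exact fun p q h h' => ⟨fun a b => a (this p q h b), fun a b => a (this q p h' b)⟩

lemma BF_one (m : ℕ) : (BF m False).OneRej := by
  intro p q hp hq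
  apply (finSuccEquiv m).injective
  rw [not_not.1 hp, not_not.1 hq]

theorem sWeak_eq (n : ℕ) (hn : 1 ≤ n) : sWeak n = 3 ^ (n - 1) + 2 ^ (n - 1) - 1 := by
  obtain ⟨m, rfl⟩ : ∃ m, n = m + 1 := ⟨n - 1, by omega⟩
  rw [Nat.add_sub_cancel]
  refine le_antisymm (Nat.sInf_le fun A _ B hB => upper_weak B hB)
    (le_csInf ⟨_, fun A _ B hB => upper_weak B hB⟩ fun b hb => ?_)
  obtain ⟨k, hk, D, hD⟩ := hb _ (BF m True) (BF_weak m)
  refine le_trans ?_ hk
  rcases m with _ | m
  · exact D.start.pos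
  · exact lower_weak D fun w => (hD w).trans (BF_acc _ _ w)

theorem sOne_eq (n : ℕ) (hn : 2 ≤ n) : sOne n = 3 ^ (n - 1) + 2 ^ n - 1 := by
  obtain ⟨m, rfl⟩ : ∃ m, n = m + 2 := ⟨n - 2, by omega⟩
  refine le_antisymm (Nat.sInf_le fun A _ B hB => upper_one B hB)
    (le_csInf ⟨_, fun A _ B hB => upper_one B hB⟩ fun b hb => ?_)
  obtain ⟨k, hk, D, hD⟩ := hb _ (BF (m + 1) False) (BF_one _)
  exact (lower_one D fun w => (hD w).trans (BF_acc _ _ w)).trans hk

theorem s_two : s 2 = 6 := by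
  have up : ∀ (A : Type) [Finite A] (B : NBA A (Fin 2)),
      ∃ k ≤ 6, ∃ D : SDRA A (Fin k), ∀ w, D.Accepts w ↔ B.Accepts w := by
    intro A _ B
    by_cases h : B.OneRej
    · exact upper_one B h
    · have : B.Weak := by
        intro p q _ _
        by_contra g
        apply h
        intro a b ha hb
        by_contra k
        have : ∀ c, c ∉ B.acc := by
          intro c
          have : c = a ∨ c = b := by omega
          rcases this with rfl | rfl <;> assumption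
        exact g ⟨fun x => absurd x (this p), fun x => absurd x (this q)⟩
      obtain ⟨k, hk, h⟩ := upper_weak B this
      exact ⟨k, hk.trans (by norm_num), h⟩
  refine le_antisymm (Nat.sInf_le up) (le_csInf ⟨_, up⟩ fun b hb => ?_)
  obtain ⟨k, hk, D, hD⟩ := hb _ (BF 1 False)
  exact (lower_one D fun w => (hD w).trans (BF_acc _ _ w)).trans hk

end Pool.Agent.MP_0f075e_lc.W55
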